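import Pool.Agent.R267.FMain2

set_option autoImplicit false
set_option synthInstance.maxHeartbeats 400000

/-!
# MP_6095cf_an, Q1: for every sequence with arbitrarily large gaps, quasi-greedy and
order-conservative along the sequence do not imply partially greedy along it

Vectors are indexed by `ℕ` from `0`: `e i` is the vector `𝐞_{i+1}` of the problem file.
-/

namespace Pool.Agent.Results.MP_6095cf_an.NotPartiallyGreedy

/-- a strictly increasing sequence of positive integers -/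
def IsSeq (n : ℕ → ℕ) : Prop := StrictMono n ∧ ∀ k, 0 < n k

/-- arbitrarily large gaps: `limsup n (k+1) / n k = ∞` -/
def LargeGaps (n : ℕ → ℕ) : Prop := ∀ R : ℕ, ∃ᶠ k in Filter.atTop, R * n k < n (k + 1)

section Defs

variable {𝕜 : Type} [RCLike 𝕜] {X : Type} [NormedAddCommGroup X] [NormedSpace 𝕜 X]

/-- semi-normalized Markushevich basis -/
structure IsBasis (e : ℕ → X) (es : ℕ → X →L[𝕜] 𝕜) : Prop where
  dense : (Submodule.span 𝕜 (Set.range e)).topologicalClosure = ⊤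
  biorth : ∀ i j, es i (e j) = if i = j then 1 else 0
  total : ∀ x, (∀ i, es i x = 0) → x = 0
  bounded : ∃ C : ℝ, ∀ i, ‖e i‖ ≤ C ∧ ‖es i‖ ≤ C

/-- the projection `P_A x` -/
noncomputable def proj (e : ℕ → X) (es : ℕ → X →L[𝕜] 𝕜) (A : Finset ℕ) (x : X) : X :=
  ∑ i ∈ A, es i x • e i

/-- the partial sums are uniformly bounded -/
def IsSchauder (e : ℕ → X) (es : ℕ → X →L[𝕜] 𝕜) : Prop :=
  ∃ C : ℝ, ∀ (m : ℕ) (x : X), ‖proj e es (Finset.range m) x‖ ≤ C * ‖x‖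

/-- `A` is a greedy set of `x` of order `A.card` -/
def IsGreedySet (es : ℕ → X →L[𝕜] 𝕜) (x : X) (A : Finset ℕ) : Prop :=
  ∀ i ∈ A, ∀ j ∉ A, ‖es j x‖ ≤ ‖es i x‖

/-- quasi-greedy along `n` -/
def QuasiGreedyAlong (n : ℕ → ℕ) (e : ℕ → X) (es : ℕ → X →L[𝕜] 𝕜) : Prop :=
  ∃ C : ℝ, ∀ (x : X) (k : ℕ) (A : Finset ℕ), A.card = n k → IsGreedySet es x A →
    ‖proj e es A x‖ ≤ C * ‖x‖

/-- partially greedy along `n` -/
def PartiallyGreedyAlong (n : ℕ → ℕ) (e : ℕ → X) (es : ℕ → X →L[𝕜] 𝕜) : Prop :=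
  ∃ C : ℝ, ∀ (x : X) (k : ℕ) (A : Finset ℕ), A.card = n k → IsGreedySet es x A →
    ‖x - proj e es A x‖ ≤ C * ‖x - proj e es (Finset.range (n k)) x‖

/-- order-conservative along `n` -/
def OrderConservativeAlong (n : ℕ → ℕ) (e : ℕ → X) : Prop :=
  ∃ C : ℝ, ∀ (k : ℕ) (A B : Finset ℕ), A.card = B.card → (∀ i ∈ A, i < n k) →
    (∀ i ∈ B, n k ≤ i) → ‖∑ i ∈ A, e i‖ ≤ C * ‖∑ i ∈ B, e i‖

/-- superdemocratic, which is stronger than order-conservative with signs along any sequence -/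
def Superdemocratic (𝕜 : Type) [RCLike 𝕜] {X : Type} [NormedAddCommGroup X] [NormedSpace 𝕜 X]
    (e : ℕ → X) : Prop :=
  ∃ C : ℝ, ∀ (A B : Finset ℕ) (ε δ : ℕ → 𝕜), (∀ i, ‖ε i‖ = 1) → (∀ i, ‖δ i‖ = 1) →
    A.card = B.card → ‖∑ i ∈ A, ε i • e i‖ ≤ C * ‖∑ i ∈ B, δ i • e i‖

end Defs

open Pool.Agent.R267 in
/-- **MP_6095cf_an, Q1 (negated form), for every sequence with arbitrarily large gaps.** -/
theorem result (𝕜 : Type) [RCLike 𝕜] :
    (∃ n : ℕ → ℕ, IsSeq n ∧ LargeGaps n) ∧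
    ∀ n : ℕ → ℕ, IsSeq n → LargeGaps n →
      ∃ (X : Type) (_ : NormedAddCommGroup X) (_ : NormedSpace 𝕜 X) (_ : CompleteSpace X)
        (e : ℕ → X) (es : ℕ → X →L[𝕜] 𝕜),
        IsBasis e es ∧ IsSchauder e es ∧ QuasiGreedyAlong n e es ∧ OrderConservativeAlong n e ∧
          Superdemocratic 𝕜 e ∧ ¬ PartiallyGreedyAlong n e es := by
  classical
  refine ⟨⟨fun k => (k + 1).factorial, ⟨?_, fun k => Nat.factorial_pos _⟩, ?_⟩, ?_⟩
  · apply strictMono_nat_of_lt_succ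
    intro k
    rw [Nat.factorial_succ (k + 1)]
    have := Nat.factorial_pos (k + 1)
    nlinarith
  · intro R
    rw [Filter.frequently_atTop]
    intro K
    refine ⟨max K R, le_max_left _ _, ?_⟩
    dsimp only
    rw [Nat.factorial_succ (max K R + 1)]
    apply Nat.mul_lt_mul_of_pos_right _ (Nat.factorial_pos _)
    have := le_max_right K R
    omega
  · rintro n ⟨hn, hn0⟩ hgap
    obtain ⟨κ, hκ, hκ2⟩ := Filter.extraction_forall_of_frequently
      (P := fun l k => (l + 2) ^ 2 * n k < n (k + 1)) (fun l => hgap ((l + 2) ^ 2))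
    let D : FM.Dat := ⟨n, κ, hn, hn0, hκ, fun l => (hκ2 l).le⟩
    have hupper : ∀ (A : Finset ℕ) (ε : ℕ → 𝕜), (∀ i, ‖ε i‖ = 1) →
        ‖∑ i ∈ A, ε i • FS.e (𝕜 := 𝕜) (FM.F_abs D) i‖ ≤ 3 * Real.sqrt A.card :=
      fun A ε hε => FM.ind_upper D A ε hε
    have hlower : ∀ (A : Finset ℕ) (ε : ℕ → 𝕜), (∀ i, ‖ε i‖ = 1) →
        Real.sqrt A.card ≤ ‖∑ i ∈ A, ε i • FS.e (𝕜 := 𝕜) (FM.F_abs D) i‖ :=
      fun A ε hε => FM.ind_lower D A ε hε
    have hsuper : ∀ (A B : Finset ℕ) (ε δ : ℕ → 𝕜), (∀ i, ‖ε i‖ = 1) → (∀ i, ‖δ i‖ = 1) →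
        A.card = B.card → ‖∑ i ∈ A, ε i • FS.e (𝕜 := 𝕜) (FM.F_abs D) i‖ ≤
          3 * ‖∑ i ∈ B, δ i • FS.e (𝕜 := 𝕜) (FM.F_abs D) i‖ := by
      intro A B ε δ hε hδ hAB
      have h1 := hupper A ε hε
      have h2 := hlower B δ hδ
      rw [hAB] at h1
      linarith
    refine ⟨D.X 𝕜, inferInstance, inferInstance, inferInstance, FS.e (FM.F_abs D),
      FS.es (FM.F_abs D), ⟨FS.dense (FM.F_abs D), FS.es_e (FM.F_abs D), FS.total (FM.F_abs D),
        3, fun i => ⟨?_, ?_⟩⟩, ⟨1, fun m x => ?_⟩, ⟨4, ?_⟩, ⟨3, ?_⟩, ⟨3, hsuper⟩, ?_⟩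
    · have h := hupper {i} (fun _ => 1) (fun _ => norm_one)
      simpa using h
    · apply ContinuousLinearMap.opNorm_le_bound _ (by norm_num)
      intro x
      have h1 := FS.es_le (FM.F_abs D) x i
      have h2 := norm_nonneg x
      linarith
    · rw [one_mul]
      unfold proj
      apply FS.sum_upper (FM.F_abs D) _ _ _ (norm_nonneg _)
      · exact FS.sum_sq_le (FM.F_abs D) x _
      · intro k M
        have h1 : (Finset.range m).filter (· < M) = Finset.range (min m M) := by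
          ext i; simp
        rw [h1]
        exact FS.psum_le (FM.F_abs D) x k _
    · intro x k A hA hG
      exact FM.quasi_greedy D x k A hA hG
    · intro k A B hAB _ _
      have h := hsuper A B (fun _ => 1) (fun _ => 1) (fun _ => norm_one) (fun _ => norm_one) hAB
      simpa using h
    · rintro ⟨C, hC⟩
      exact FM.not_partially_greedy D C (fun x j A hA hG => hC x j A hA hG)

end Pool.Agent.Results.MP_6095cf_an.NotPartiallyGreedy
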